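import Mathlib

namespace Pool.Agent.Results.MP_711a76_lc.No

abbrev Sp (q n : ℕ) := Fin n → ZMod q × ZMod q

/-- the symplectic form -/
def form {q n : ℕ} (u v : Sp q n) : ZMod q := ∑ i, ((u i).1 * (v i).2 - (v i).1 * (u i).2)

def perp {q n : ℕ} (C : Submodule (ZMod q) (Sp q n)) : Set (Sp q n) := {u | ∀ c ∈ C, form u c = 0}

/-- stabilizer code, not self-dual, of distance at least three -/
def Stab3 {q n : ℕ} (C : Submodule (ZMod q) (Sp q n)) : Prop :=
  (C : Set (Sp q n)) ⊂ perp C ∧ ∀ u ∈ perp C, u ∉ C → 3 ≤ hammingNorm u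

def mono {q n : ℕ} (π : Equiv.Perm (Fin n))
    (g : Fin n → (ZMod q × ZMod q) ≃ₗ[ZMod q] (ZMod q × ZMod q)) (u : Sp q n) : Sp q n :=
  fun i => g i (u (π.symm i))

/-- `f` restricts to a weight-preserving linear bijection from `C` onto `D` -/
def Isom {q n : ℕ} (C D : Set (Sp q n)) (f : Sp q n → Sp q n) : Prop :=
  Set.BijOn f C D ∧ (∀ u ∈ C, ∀ v ∈ C, f (u + v) = f u + f v) ∧
    (∀ a : ZMod q, ∀ u ∈ C, f (a • u) = a • f u) ∧ ∀ u ∈ C, hammingNorm (f u) = hammingNorm u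

/-- some monomial transformation maps `C` onto `D` -/
def MonoEq {q n : ℕ} (C D : Set (Sp q n)) : Prop := ∃ π g, mono π g '' C = D

def gC : Fin 6 → Sp 2 7 :=
  ![![(1, 0), (0, 0), (1, 0), (0, 0), (1, 0), (0, 0), (1, 0)],
    ![(0, 0), (1, 0), (1, 0), (0, 0), (0, 0), (1, 0), (1, 0)],
    ![(0, 0), (0, 0), (0, 0), (1, 0), (1, 0), (1, 0), (1, 0)],
    ![(0, 1), (0, 0), (0, 1), (0, 0), (0, 1), (0, 0), (0, 1)],
    ![(0, 0), (0, 1), (0, 1), (0, 0), (0, 0), (0, 1), (0, 1)],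
    ![(0, 0), (0, 0), (0, 0), (0, 1), (0, 1), (0, 1), (0, 1)]]

def gD : Fin 6 → Sp 2 7 :=
  ![![(1, 0), (0, 0), (1, 0), (0, 0), (1, 0), (0, 0), (1, 0)],
    ![(0, 1), (0, 0), (0, 1), (0, 0), (0, 0), (1, 0), (1, 0)],
    ![(0, 0), (0, 0), (0, 0), (1, 0), (1, 0), (1, 0), (1, 0)],
    ![(0, 0), (1, 0), (1, 0), (0, 0), (0, 1), (0, 0), (0, 1)],
    ![(0, 0), (0, 1), (0, 1), (0, 0), (0, 0), (0, 1), (0, 1)],
    ![(0, 0), (0, 0), (0, 0), (0, 1), (0, 1), (0, 1), (0, 1)]]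

def E (g : Fin 6 → Sp 2 7) (x : Fin 6 → ZMod 2) : Sp 2 7 := fun i => ∑ j, x j • g j i

def enc (g : Fin 6 → Sp 2 7) : (Fin 6 → ZMod 2) →ₗ[ZMod 2] Sp 2 7 :=
  Fintype.linearCombination (ZMod 2) g

theorem enc_eq (g : Fin 6 → Sp 2 7) (x : Fin 6 → ZMod 2) : enc g x = E g x := by
  funext i
  simp [enc, E, Fintype.linearCombination_apply, Finset.sum_apply]

theorem form_enc (g : Fin 6 → Sp 2 7) (u : Sp 2 7) (h : ∀ j, form u (g j) = 0)
    (x : Fin 6 → ZMod 2) : form u (enc g x) = 0 := by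
  let φ : Sp 2 7 →ₗ[ZMod 2] ZMod 2 :=
    { toFun := form u
      map_add' := fun a b => by
        simp only [form, ← Finset.sum_add_distrib, Pi.add_apply, Prod.fst_add, Prod.snd_add]
        exact Finset.sum_congr rfl fun i _ => by ring
      map_smul' := fun a b => by
        simp only [form, Finset.mul_sum, Pi.smul_apply, Prod.smul_fst, Prod.smul_snd, smul_eq_mul,
          RingHom.id_apply]
        exact Finset.sum_congr rfl fun i _ => by ring }
  change φ _ = 0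
  simp only [enc, Fintype.linearCombination_apply, map_sum, map_smul]
  exact Finset.sum_eq_zero fun j _ => by rw [show φ (g j) = 0 from h j, smul_zero]

theorem stab (g : Fin 6 → Sp 2 7) (h1 : ∀ x j, form (E g x) (g j) = 0)
    (h2 : ∃ u, (∀ j, form u (g j) = 0) ∧ ∀ x, E g x ≠ u)
    (h3 : ∀ (i j : Fin 7) (a b : ZMod 2 × ZMod 2),
      (∀ t, form (fun k => if k = i then a else if k = j then b else 0) (g t) = 0) →
        (fun k => if k = i then a else if k = j then b else 0 : Sp 2 7) = 0) :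
    Stab3 (LinearMap.range (enc g)) := by
  have hg : ∀ j, g j ∈ LinearMap.range (enc g) := fun j => ⟨Pi.single j 1, by simp [enc]⟩
  refine ⟨⟨?_, fun h => ?_⟩, fun u hu hne => ?_⟩
  · rintro _ ⟨x, rfl⟩ _ ⟨y, rfl⟩
    exact form_enc g _ (by rw [enc_eq]; exact h1 x) y
  · obtain ⟨u, hu, hx⟩ := h2
    obtain ⟨x, e⟩ := h (show u ∈ perp _ by rintro _ ⟨y, rfl⟩; exact form_enc g u hu y)
    exact hx x (by rw [← enc_eq, e])
  · by_contra hlt
    obtain ⟨s, hs, hc⟩ := Finset.exists_superset_card_eq (s := {i | u i ≠ 0}) (n := 2)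
      (by unfold hammingNorm at hlt; omega) (by simp)
    obtain ⟨i, j, -, rfl⟩ := Finset.card_eq_two.1 hc
    have e : u = fun k => if k = i then u i else if k = j then u j else 0 := by
      funext k
      split_ifs with c1 c2
      · rw [c1]
      · rw [c2]
      · by_contra h
        have := hs (Finset.mem_filter.2 ⟨Finset.mem_univ k, h⟩)
        simp [c1, c2] at this
    apply hne
    rw [e, h3 i j _ _ fun t => e ▸ hu _ (hg t)]
    exact Submodule.zero_mem _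

theorem inj (g : Fin 6 → Sp 2 7) (h : ∀ x, E g x = 0 → x = 0) : Function.Injective (enc g) :=
  (injective_iff_map_eq_zero _).2 fun x hx => h x (by rw [← enc_eq, hx])

theorem main : ∃ (C D : Submodule (ZMod 2) (Sp 2 7)) (f : C ≃ₗ[ZMod 2] D),
    Stab3 C ∧ Stab3 D ∧ (∀ c : C, hammingNorm (f c : Sp 2 7) = hammingNorm (c : Sp 2 7)) ∧
    ∀ π g, mono π g '' (C : Set (Sp 2 7)) ≠ (D : Set (Sp 2 7)) := by
  have iC := inj gC (by decide +kernel)
  have iD := inj gD (by decide +kernel)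
  refine ⟨LinearMap.range (enc gC), LinearMap.range (enc gD),
    (LinearEquiv.ofInjective _ iC).symm.trans (LinearEquiv.ofInjective _ iD),
    stab gC (by decide +kernel) ⟨fun _ => (1, 0), by decide +kernel⟩ (by decide +kernel),
    stab gD (by decide +kernel) ⟨![(0, 0), (0, 0), (1, 0), (0, 0), (1, 1), (0, 0), (1, 1)],
      by decide +kernel⟩ (by decide +kernel), fun c => ?_, fun π g h => ?_⟩
  · obtain ⟨x, rfl⟩ := (LinearEquiv.ofInjective _ iC).surjective c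
    simp only [LinearEquiv.trans_apply, LinearEquiv.symm_apply_apply, LinearEquiv.ofInjective_apply,
      enc_eq]
    revert x
    decide +kernel
  · have h1 : ∀ x : Fin 6 → ZMod 2, hammingNorm (E gC x) = 4 →
        ∃ y, E gC y ≠ E gC x ∧ ∀ i, E gC y i = 0 ↔ E gC x i = 0 := by decide +kernel
    have h2 : ∀ y : Fin 6 → ZMod 2, (∀ i, E gD y i = 0 ↔ gD 0 i = 0) → E gD y = gD 0 := by
      decide +kernel
    have h3 : gD 0 ∈ mono π g '' (LinearMap.range (enc gC)) := by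
      rw [h]
      exact ⟨Pi.single 0 1, by simp [enc]⟩
    obtain ⟨_, ⟨x, rfl⟩, hx⟩ := h3
    have hz : ∀ (u : Sp 2 7) i, mono π g u i = 0 ↔ u (π.symm i) = 0 := fun u i => by simp [mono]
    have h4 : hammingNorm (E gC x) = 4 := by
      rw [← enc_eq, show 4 = hammingNorm (gD 0) by decide +kernel, ← hx]
      exact Finset.card_equiv π fun i => by simp [hz]
    obtain ⟨y, hy1, hy2⟩ := h1 x h4
    have h5 : mono π g (enc gC y) ∈ (LinearMap.range (enc gD) : Set _) :=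
      h ▸ Set.mem_image_of_mem _ ⟨y, rfl⟩
    obtain ⟨z, e⟩ := h5
    rw [enc_eq] at e
    have h6 := h2 z fun i => by rw [e, ← hx, hz, hz, enc_eq, enc_eq, hy2]
    rw [e, ← hx, enc_eq, enc_eq] at h6
    apply hy1
    funext i
    simpa [mono] using congrFun h6 (π i)

theorem result : ∃ (C D : Submodule (ZMod 2) (Sp 2 7)) (f : Sp 2 7 → Sp 2 7),
    Stab3 C ∧ Stab3 D ∧ Isom (q := 2) C D f ∧ ¬ MonoEq (q := 2) (n := 7) C D := by
  classical
  obtain ⟨C, D, e, h1, h2, h3, h4⟩ := main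
  let f : Sp 2 7 → Sp 2 7 := fun u => if h : u ∈ C then e ⟨u, h⟩ else 0
  have hf : ∀ c : C, f c = e c := fun c => dif_pos c.2
  refine ⟨C, D, f, h1, h2, ⟨⟨fun u hu => ?_, fun u hu v hv h => ?_, fun v hv => ?_⟩,
    fun u hu v hv => ?_, fun a u hu => ?_, fun u hu => ?_⟩, fun ⟨π, g, h⟩ => h4 π g h⟩
  · rw [hf ⟨u, hu⟩]
    exact (e _).2
  · rw [hf ⟨u, hu⟩, hf ⟨v, hv⟩] at h
    exact congrArg Subtype.val (e.injective (Subtype.ext h))
  · exact ⟨e.symm ⟨v, hv⟩, (e.symm _).2, by rw [hf]; simp⟩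
  · rw [hf ⟨u, hu⟩, hf ⟨v, hv⟩, ← Submodule.coe_add, ← map_add, ← hf]
    rfl
  · rw [hf ⟨u, hu⟩, ← Submodule.coe_smul, ← map_smul, ← hf]
    rfl
  · rw [hf ⟨u, hu⟩, h3]

end Pool.Agent.Results.MP_711a76_lc.No
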